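import Pool.Agent.H89.FLT.S

/-!
# MP_e1ba20: row EQF
-/

set_option autoImplicit false

open Matrix MeasureTheory

namespace Pool.FLT

theorem countable_GZ34 (n : ℕ) : Countable (GZ n) := by
  have h : Function.Injective (fun (γ : GZ n) (i j : Fin n) => (γ : Matrix (Fin n) (Fin n) ℤ) i j) := by
    intro a b hab
    ext i j
    exact congrFun (congrFun hab i) j
  exact h.countable

theorem vol_univ_ne34 (n : ℕ) : vol n Set.univ ≠ 0 := by
  have h : (vol n).IsOpenPosMeasure := by
    unfold vol
    infer_instance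
  exact (isOpen_univ.measure_pos (vol n) ⟨0, trivial⟩).ne'

/-- **EQF**. -/
theorem eqf (hMON : MONStmt) : EQFStmt := by
  intro n hn g g0 hfl
  by_contra hcon
  push Not at hcon
  have hc := countable_GZ34 n
  have hnull : ∀ γ : GZ n, vol n {x : aa n | ∃ (y : aa n) (k : GR n), inK k ∧
      ((inc n γ * g0)⁻¹ * g) * ee x = ee y * k} = 0 := by
    intro γ
    apply hMON n hn
    intro hM
    exact hcon γ _ hM (by group)
  have hun : (Set.univ : Set (aa n)) = ⋃ γ : GZ n, {x : aa n | ∃ (y : aa n) (k : GR n), inK k ∧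
      ((inc n γ * g0)⁻¹ * g) * ee x = ee y * k} := by
    symm
    rw [Set.eq_univ_iff_forall]
    intro x
    have h1 : g * ee x ∈ fl ⊤ g := by
      refine ⟨1, trivial, x, trivial, 1, ?_, ?_⟩
      · simp [inK]
      · simp
    rw [hfl] at h1
    obtain ⟨γ, -, y, -, k, hk, h2⟩ := h1
    rw [Set.mem_iUnion]
    refine ⟨γ, y, k, hk, ?_⟩
    rw [mul_assoc, h2]
    group
  apply vol_univ_ne34 n
  rw [hun, measure_iUnion_null_iff]
  exact hnull

end Pool.FLT
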